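import Pool.Agent.ASE.Stmts5

/-!
# Squad ASE, row GDH: the sums `GD`
-/

set_option autoImplicit false

noncomputable section

namespace Pool.Agent.PP.SE.H84

open Pool.Agent.Helper51_AWC Pool.Agent.Helper79_WRA Pool.Agent.PP Pool.Agent.PP.KF
open Pool.Agent.PP.K9 Pool.Agent.PP.K9.H97 Pool.Agent.PP.H75 Pool.Agent.PP.T3 Pool.Agent.PP.SO
open Pool.Agent.PP.SD

attribute [local instance] Ideal.Quotient.field

theorem fs {α : Type} [Fintype α] (S : Set α) [DecidablePred (· ∈ S)] (f : α → ℚ) :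
    ∑ᶠ x ∈ S, f x = ∑ x, if x ∈ S then f x else 0 := by
  classical
  rw [finsum_mem_def, finsum_eq_sum_of_fintype]
  refine Finset.sum_congr rfl fun x _ => ?_
  by_cases h : x ∈ S
  · rw [Set.indicator_of_mem h, if_pos h]
  · rw [Set.indicator_of_notMem h, if_neg h]

/-- subgroups -/
theorem sub {ℓ : ℕ} [hℓ : Fact ℓ.Prime] {V₀ : Type} [CommGroup V₀] [Finite V₀]
    (hc : Nat.card V₀ = ℓ ^ 2) (W : Subgroup V₀) : W = ⊥ ∨ Nat.card W = ℓ ∨ W = ⊤ := by
  have h1 : Nat.card W ∣ ℓ ^ 2 := hc ▸ Subgroup.card_subgroup_dvd_card W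
  obtain ⟨k, hk, h2⟩ := (Nat.dvd_prime_pow hℓ.out).1 h1
  interval_cases k
  · left
    rw [pow_zero] at h2
    exact Subgroup.card_eq_one.1 h2
  · right; left
    rw [pow_one] at h2
    exact h2
  · right; right
    exact Subgroup.eq_top_of_card_eq W (h2.trans hc.symm)

/-- a line and an element outside -/
theorem line {ℓ : ℕ} [hℓ : Fact ℓ.Prime] {V₀ : Type} [CommGroup V₀] [Finite V₀]
    {a : Subgroup V₀} (hex : ∀ v : V₀, v ^ ℓ = 1) {κ : V₀}
    (hκ : κ ∉ a) (k : ℕ) (hk : κ ^ k ∈ a) : κ ^ k = 1 := by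
  by_cases h : ℓ ∣ k
  · obtain ⟨m, rfl⟩ := h
    rw [pow_mul, hex, one_pow]
  · exfalso
    apply hκ
    have h1 : Nat.Coprime k ℓ := ((Nat.Prime.coprime_iff_not_dvd hℓ.out).2 h).symm
    obtain ⟨m, -, hm⟩ := Nat.exists_mul_mod_eq_one_of_coprime h1 hℓ.out.one_lt
    have h2 : κ ^ (k * m) = κ := by
      conv_rhs => rw [← pow_one κ]
      rw [pow_eq_pow_iff_modEq]
      have h3 : k * m ≡ 1 [MOD ℓ] := by
        unfold Nat.ModEq
        rw [hm, Nat.mod_eq_of_lt hℓ.out.one_lt]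
      exact h3.of_dvd (orderOf_dvd_of_pow_eq_one (hex κ))
    rw [← h2, pow_mul]
    exact a.pow_mem hk m

/-- GDH -/
theorem gdh (hMBI : MbiStmt) : GdhStmt := by
  classical
  intro ℓ hℓ V₀ _ _ E₀ hF n U c d σ a ha hκ F T hT
  generalize hκd : c * σ d = κ at hκ hT
  have : Fintype (Set (SO.SS n V₀)) := Fintype.ofFinite _
  have hane : a ≠ ⊥ := by
    rintro rfl
    rw [Subgroup.card_bot] at ha
    exact hℓ.out.one_lt.ne ha
  -- the subgroup `aL`
  have haL : ∀ L : Set (SO.SS n V₀), L ⊆ T → (aL κ L = a ↔ ¬ L ⊆ A1 κ T) := by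
    intro L hL
    constructor
    · intro h1 h2
      apply hane
      rw [← h1, eq_bot_iff]
      unfold aL
      rw [Subgroup.closure_le]
      rintro x ⟨s, hs, rfl⟩
      exact (h2 hs).2
    · intro h1
      have h2 : aL κ L ≤ a := by
        unfold aL
        rw [Subgroup.closure_le]
        rintro x ⟨s, hs, rfl⟩
        exact hT s (hL hs)
      have h3 : Nat.card (aL κ L) ∣ ℓ := ha ▸ Subgroup.card_dvd_of_le h2
      rcases (Nat.dvd_prime hℓ.out).1 h3 with h4 | h4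
      · exfalso
        apply h1
        intro s hs
        refine ⟨hL hs, ?_⟩
        have h5 : κ ^ (s.2.1 : ℕ) * s.2.2.1 ∈ aL κ L := Subgroup.subset_closure ⟨s, hs, rfl⟩
        rw [Subgroup.card_eq_one.1 h4] at h5
        exact h5
      · exact Subgroup.eq_of_le_of_card_ge h2 (by rw [h4, ha])
  -- the subgroup `pL`
  have hpL : ∀ L : Set (SO.SS n V₀), L ⊆ T → aL κ L = a → pL L ≠ ⊥ := by
    intro L hL h1 h2
    rw [haL L hL] at h1
    apply h1
    intro s hs
    refine ⟨hL hs, ?_⟩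
    have h3 : s.2.2.1 ∈ pL L := Subgroup.subset_closure ⟨s, hs, rfl⟩
    rw [h2, Subgroup.mem_bot] at h3
    have h4 := hT s (hL hs)
    rw [h3, mul_one] at h4 ⊢
    exact line hF.ex hκ _ h4
  -- Moebius inversion
  have hH : ∀ T' : Set (SO.SS n V₀), T' ⊆ T → F T' - F (A1 κ T') =
      ∑ L : Set (SO.SS n V₀), if L ⊆ T' ∧ aL κ L = a then mob F L else 0 := by
    intro T' hT'
    have e1 := (hMBI _ F).1 T'
    have e2 := (hMBI _ F).1 (A1 κ T')
    rw [← e1, ← e2, fs, fs, ← Finset.sum_sub_distrib]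
    refine Finset.sum_congr rfl fun L _ => ?_
    change (if L ⊆ T' then mob F L else 0) - (if L ⊆ A1 κ T' then mob F L else 0) = _
    have hA : A1 κ T' ⊆ T' := fun s hs => hs.1
    by_cases h1 : L ⊆ T'
    · have h3 : L ⊆ A1 κ T' ↔ L ⊆ A1 κ T :=
        ⟨fun h s hs => ⟨hT' (h1 hs), (h hs).2⟩, fun h s hs => ⟨h1 hs, (h hs).2⟩⟩
      by_cases h2 : L ⊆ A1 κ T'
      · rw [if_pos h1, if_pos h2, if_neg, sub_self]
        rintro ⟨-, h4⟩
        exact (haL L (h1.trans hT')).1 h4 (h3.1 h2)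
      · rw [if_pos h1, if_neg h2, if_pos ⟨h1, (haL L (h1.trans hT')).2 fun h => h2 (h3.2 h)⟩,
          sub_zero]
    · rw [if_neg h1, if_neg fun h => h1 (h.trans hA), if_neg fun h => h1 h.1, sub_zero]
  have hcS : cS U c d σ ⊤ = 1 := by
    unfold cS ux
    simp
  -- the sum over the lines
  have hsub : ∀ W : Subgroup V₀, {s | s ∈ T ∧ s.2.2.1 ∈ W} ⊆ T := fun W s hs => hs.1
  rw [hH T subset_rfl]
  have hW : ∀ W : Subgroup V₀, (cS U c d σ W - 1) * (F {s | s ∈ T ∧ s.2.2.1 ∈ W} -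
      F (A1 κ {s | s ∈ T ∧ s.2.2.1 ∈ W})) = ∑ L : Set (SO.SS n V₀),
      if L ⊆ T ∧ aL κ L = a then (if pL L ≤ W then (cS U c d σ W - 1) * mob F L else 0) else 0 := by
    intro W
    rw [hH _ (hsub W), Finset.mul_sum]
    refine Finset.sum_congr rfl fun L _ => ?_
    have h1 : L ⊆ {s | s ∈ T ∧ s.2.2.1 ∈ W} ↔ L ⊆ T ∧ pL L ≤ W := by
      unfold pL
      rw [Subgroup.closure_le]
      constructor
      · intro h
        refine ⟨fun s hs => (h hs).1, ?_⟩
        rintro x ⟨s, hs, rfl⟩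
        exact (h hs).2
      · rintro ⟨h, h'⟩ s hs
        exact ⟨h hs, h' ⟨s, hs, rfl⟩⟩
    by_cases h2 : L ⊆ T ∧ aL κ L = a
    · by_cases h3 : pL L ≤ W
      · rw [if_pos h2, if_pos h3, if_pos ⟨h1.2 ⟨h2.1, h3⟩, h2.2⟩]
      · rw [if_pos h2, if_neg h3, if_neg fun h => h3 (h1.1 h.1).2, mul_zero]
    · rw [if_neg h2, if_neg fun h => h2 ⟨(h1.1 h.1).1, h.2⟩, mul_zero]
  simp_rw [hW]
  have : Fintype (Subgroup V₀) := Fintype.ofFinite _
  rw [fs {W : Subgroup V₀ | Nat.card W = ℓ}]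
  have h5 : (∑ W : Subgroup V₀, if W ∈ {W : Subgroup V₀ | Nat.card W = ℓ} then
      ∑ L : Set (SO.SS n V₀), (if L ⊆ T ∧ aL κ L = a then
        (if pL L ≤ W then (cS U c d σ W - 1) * mob F L else 0) else 0) else 0) =
      ∑ L : Set (SO.SS n V₀), ∑ W : Subgroup V₀, if W ∈ {W : Subgroup V₀ | Nat.card W = ℓ} then
      (if L ⊆ T ∧ aL κ L = a then
        (if pL L ≤ W then (cS U c d σ W - 1) * mob F L else 0) else 0) else 0 := by
    rw [Finset.sum_comm]
    refine Finset.sum_congr rfl fun W _ => ?_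
    by_cases h6 : W ∈ {W : Subgroup V₀ | Nat.card W = ℓ}
    · simp only [if_pos h6]
    · simp only [if_neg h6, Finset.sum_const_zero]
  rw [h5, ← Finset.sum_add_distrib]
  unfold GD
  rw [hκd, fs]
  refine Finset.sum_congr rfl fun L _ => ?_
  by_cases h2 : L ⊆ T ∧ aL κ L = a
  · have h2' : L ∈ {L | L ⊆ T ∧ aL κ L = a} := h2
    rw [if_pos h2', if_pos h2]
    simp only [if_pos h2]
    rcases sub hF.cd (pL L) with h6 | h6 | h6
    · exact absurd h6 (hpL L h2.1 h2.2)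
    · rw [Finset.sum_eq_single (pL L)]
      · have h6' : pL L ∈ {W : Subgroup V₀ | Nat.card W = ℓ} := h6
        rw [if_pos h6', if_pos le_rfl]
        ring
      · intro W _ hWne
        by_cases h7 : W ∈ {W : Subgroup V₀ | Nat.card W = ℓ}
        · rw [if_pos h7, if_neg]
          intro h8
          exact hWne (Subgroup.eq_of_le_of_card_ge h8 (by rw [h6]; exact h7.le)).symm
        · rw [if_neg h7]
      · intro h
        exact absurd (Finset.mem_univ _) h
    · rw [h6, hcS, Finset.sum_eq_zero, one_mul, add_zero]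
      intro W _
      by_cases h7 : W ∈ {W : Subgroup V₀ | Nat.card W = ℓ}
      · rw [if_pos h7, if_neg]
        intro h8
        have h9 : W = ⊤ := top_le_iff.1 h8
        have h10 : Nat.card W = ℓ := h7
        rw [h9, Subgroup.card_top, hF.cd] at h10
        have h11 := hℓ.out.one_lt
        nlinarith
      · rw [if_neg h7]
  · have h2' : L ∉ {L | L ⊆ T ∧ aL κ L = a} := h2
    rw [if_neg h2', if_neg h2]
    simp only [if_neg h2]
    simp

end Pool.Agent.PP.SE.H84
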